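import Pool.Agent.Q227.DS.Pol
import Pool.Agent.Q227.NoDec
import Pool.Agent.H673R2.HardOn

/-!
# DMVP on stars with bounded edge recurrence is NP-hard, already for `Δ = 2`

The reduction is from 3-satisfiability. The deadline leaves no room: the visits of the leaves
tile the time interval, and every gadget (one for each variable) contains exactly one visit of
length three, whose position is the value of the variable.
-/

set_option autoImplicit false

namespace Pool.Agent.Results.MP_21485e_lc.StarHard

open Pool.Agent.NPC Pool.Agent.H673R2 Pool.Agent.Q227.TF Pool.Agent.Q227.DS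

/-- For every `Δ ≥ 2`, DMVP on stars in the class `B_Δ` is `NP`-hard: every language in `NP` has
a polynomial-time many-one reduction to it, all of whose instances are stars with a start vertex,
a deadline and a schedule satisfying the condition of `B_Δ`. Hence, if `P ≠ NP`, no
polynomial-time algorithm decides it. -/
theorem result : ∀ Δ : ℕ, 2 ≤ Δ → NPHardOn (Valid Δ) Covers ∧
    (PneNP → ¬ ∃ A : List Bool → List Bool, PolyTime A ∧ ∀ I : Inst, Valid Δ I →
      (Covers I → A (bits I) = [true]) ∧ (¬ Covers I → A (bits I) = [false])) := by
  intro Δ hΔ
  have h : NPHardOn (Valid Δ) Covers :=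
    npHardOn_of hardPr_SAT3b (f := red) red_poly (fun φ _ => red_valid φ hΔ)
      fun φ hφ => red_iff hφ.1 hφ.2.1 hφ.2.2
  exact ⟨h, fun hne => Pool.Agent.Q227.no_decider h hne⟩

end Pool.Agent.Results.MP_21485e_lc.StarHard
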